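import Pool.Agent.Y110.FJ.Stm4

/-!
# FJ-TW: mapping tori of twisted automorphisms of graph products

Job of helper110, done by helper232.
-/

set_option autoImplicit false

namespace Pool.Agent.Y232.FJ.TW

open Pool.Agent.Y110.FJ
open Pool.Agent.Y462.SS (Closed)
open SemidirectProduct

/-- powers of intertwined automorphisms are intertwined -/
theorem twine {A H : Type} [Group A] [Group H] (φ : A →* H) (γ : MulAut A) (σ : MulAut H)
    (h : ∀ a, σ (φ a) = φ (γ a)) (n : ℤ) (a : A) : (σ ^ n) (φ a) = φ ((γ ^ n) a) := by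
  have hnat : ∀ (k : ℕ) (a : A), (σ ^ k) (φ a) = φ ((γ ^ k) a) := by
    intro k
    induction k with
    | zero => intro a; simp
    | succ k ih =>
      intro a
      rw [pow_succ, pow_succ, MulAut.mul_apply, MulAut.mul_apply, h, ih]
  obtain ⟨k, rfl | rfl⟩ := n.eq_nat_or_neg
  · rw [zpow_natCast, zpow_natCast, hnat]
  · have h1 := hnat k ((γ ^ (-(k : ℤ))) a)
    have h2 : (γ ^ k) ((γ ^ (-(k : ℤ))) a) = a := by
      rw [← zpow_natCast, ← MulAut.mul_apply, ← zpow_add, add_neg_cancel, zpow_zero,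
        MulAut.one_apply]
    rw [h2] at h1
    rw [← h1, ← zpow_natCast, ← MulAut.mul_apply, ← zpow_add, neg_add_cancel, zpow_zero,
      MulAut.one_apply]

/-- passing to a power of the automorphism -/
theorem fi_mem {C : ∀ (G : Type) [Group G], Prop} (hC : ClosedE C) {N : Type} [Group N]
    (σ : MulAut N) (m : ℕ) (hm : 0 < m)
    (h : C (N ⋊[zpowersHom (MulAut N) (σ ^ m)] Multiplicative ℤ)) :
    C (N ⋊[zpowersHom (MulAut N) σ] Multiplicative ℤ) := by
  classical
  have : NeZero m := ⟨hm.ne'⟩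
  let Θ : (N ⋊[zpowersHom (MulAut N) (σ ^ m)] Multiplicative ℤ) →*
      (N ⋊[zpowersHom (MulAut N) σ] Multiplicative ℤ) :=
    SemidirectProduct.map (MonoidHom.id N) (powMonoidHom m) (by
      intro q
      ext x
      simp only [MonoidHom.comp_apply, MonoidHom.id_apply]
      change (zpowersHom (MulAut N) (σ ^ m) q) x = (zpowersHom (MulAut N) σ (q ^ m)) x
      rw [zpowersHom_apply, zpowersHom_apply, toAdd_pow, ← zpow_natCast σ, ← zpow_mul]
      congr 2)
  have hΘl : ∀ x, (Θ x).left = x.left := fun x => rfl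
  have hΘr : ∀ x, (Θ x).right = x.right ^ m := fun x => rfl
  have hinj : Function.Injective Θ := by
    rw [injective_iff_map_eq_one]
    intro x hx
    have h1 : x.left = 1 := by rw [← hΘl, hx]; rfl
    have h2 : x.right ^ m = 1 := by rw [← hΘr, hx]; rfl
    have h3 : x.right = 1 := by
      apply Multiplicative.toAdd.injective
      have h4 : (m : ℤ) * Multiplicative.toAdd x.right = 0 := by
        have := congrArg Multiplicative.toAdd h2
        rw [toAdd_pow, toAdd_one, nsmul_eq_mul] at this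
        exact this
      rcases mul_eq_zero.mp h4 with h5 | h5
      · exfalso; exact hm.ne' (by exact_mod_cast h5)
      · rw [h5, toAdd_one]
    ext
    · exact h1
    · exact h3
  have hCK : C ↥Θ.range :=
    hC.base.of_injective _ _ (MonoidHom.ofInjective hinj).symm.toMonoidHom
      (MonoidHom.ofInjective hinj).symm.injective h
  let κ : (N ⋊[zpowersHom (MulAut N) σ] Multiplicative ℤ) →* Multiplicative (ZMod m) :=
    (AddMonoidHom.toMultiplicative (Int.castAddHom (ZMod m))).comp rightHom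
  have hle : κ.ker ≤ Θ.range := by
    intro g hg
    have h1 : ((Multiplicative.toAdd g.right : ℤ) : ZMod m) = 0 := by
      have : κ g = 1 := hg
      exact Multiplicative.ofAdd.injective this
    rw [ZMod.intCast_zmod_eq_zero_iff_dvd] at h1
    obtain ⟨j, hj⟩ := h1
    refine ⟨⟨g.left, Multiplicative.ofAdd j⟩, ?_⟩
    ext
    · exact hΘl _
    · rw [hΘr]
      have h6 : (Multiplicative.ofAdd j) ^ m = g.right := by
        apply Multiplicative.toAdd.injective
        rw [toAdd_pow, hj, toAdd_ofAdd, nsmul_eq_mul]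
      exact h6
  have : κ.ker.FiniteIndex := Subgroup.finiteIndex_ker κ
  exact hC.base.finiteIndex _ Θ.range (Subgroup.finiteIndex_of_le hle) hCK

/-- conjugation by `u` on a subgroup -/
def gam {G : Type} [Group G] (H : Subgroup G) (u : G) (h1 : ∀ x ∈ H, u * x * u⁻¹ ∈ H)
    (h2 : ∀ x ∈ H, u⁻¹ * x * u ∈ H) : MulAut H where
  toFun x := ⟨u * x * u⁻¹, h1 x x.2⟩
  invFun x := ⟨u⁻¹ * x * u, h2 x x.2⟩
  left_inv x := by
    apply Subtype.ext
    change u⁻¹ * (u * (x : G) * u⁻¹) * u = x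
    group
  right_inv x := by
    apply Subtype.ext
    change u * (u⁻¹ * (x : G) * u) * u⁻¹ = x
    group
  map_mul' x y := by
    apply Subtype.ext
    change u * ((x : G) * y) * u⁻¹ = (u * x * u⁻¹) * (u * y * u⁻¹)
    group

/-- the vertex groups of the mapping torus -/
theorem vertex_mem {C : ∀ (G : Type) [Group G], Prop} (hC : ClosedE C) {G : Type} [Group G]
    (H : Subgroup G) (u : G) (h1 : ∀ x ∈ H, u * x * u⁻¹ ∈ H) (h2 : ∀ x ∈ H, u⁻¹ * x * u ∈ H)
    (h : C ↥(H ⊔ Subgroup.zpowers u)) :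
    C (↥H ⋊[zpowersHom (MulAut H) (gam H u h1 h2)] Multiplicative ℤ) := by
  let u' : ↥(H ⊔ Subgroup.zpowers u) :=
    ⟨u, (le_sup_right : Subgroup.zpowers u ≤ H ⊔ Subgroup.zpowers u) (Subgroup.mem_zpowers u)⟩
  let f₁ : H →* ↥(H ⊔ Subgroup.zpowers u) := Subgroup.inclusion le_sup_left
  let F : (↥H ⋊[zpowersHom (MulAut H) (gam H u h1 h2)] Multiplicative ℤ) →*
      ↥(H ⊔ Subgroup.zpowers u) :=
    SemidirectProduct.lift f₁ (zpowersHom _ u') (by
      intro q
      ext b
      have h3 := twine f₁ (gam H u h1 h2) (MulAut.conj u') (fun a => Subtype.ext rfl)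
        (Multiplicative.toAdd q) b
      rw [← map_zpow] at h3
      exact congrArg Subtype.val h3.symm)
  let Φ : (↥H ⋊[zpowersHom (MulAut H) (gam H u h1 h2)] Multiplicative ℤ) →*
      ↥(H ⊔ Subgroup.zpowers u) × Multiplicative ℤ := F.prod rightHom
  refine hC.base.of_injective _ _ Φ ?_ (hC.base.prod _ _ h hC.base.int)
  rw [injective_iff_map_eq_one]
  intro x hx
  have e2 : x.right = 1 := congrArg Prod.snd hx
  have e1 : F x = 1 := congrArg Prod.fst hx
  have e3 : x = inl x.left := by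
    ext
    · rfl
    · rw [e2]; rfl
  rw [e3, SemidirectProduct.lift_inl] at e1
  have e4 : x.left = 1 := by
    apply Subgroup.inclusion_injective (le_sup_left : H ≤ H ⊔ Subgroup.zpowers u)
    rw [map_one]
    exact e1
  rw [e3, e4, map_one]

theorem t_tw (h : S_RGP) : S_TW := by
  intro C hC G T _ _ Λ B τ g hΛ hB hCk σ hσ
  have hBn : ∀ (n : ℕ) (t : T), B ((τ ^ n) t) = (B t).map (MulAut.conj (g ^ n)).toMonoidHom := by
    intro n
    induction n with
    | zero =>
      intro t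
      ext x
      simp [Subgroup.mem_map]
    | succ n ih =>
      intro t
      rw [pow_succ', Equiv.Perm.mul_apply, hB, ih, Subgroup.map_map]
      congr 1
      ext x
      simp only [MonoidHom.comp_apply]
      change g * (g ^ n * x * (g ^ n)⁻¹) * g⁻¹ = g ^ (n + 1) * x * (g ^ (n + 1))⁻¹
      rw [pow_succ', mul_inv_rev]
      simp only [mul_assoc]
  have hmem : ∀ (n : ℕ) (t : T) (b : G), b ∈ B t → g ^ n * b * (g ^ n)⁻¹ ∈ B ((τ ^ n) t) := by
    intro n t b hb
    rw [hBn]
    exact ⟨b, hb, rfl⟩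
  have hσ' : ∀ (t s : T), τ t = s → ∀ (b : B t) (b' : B s), (b' : G) = g * b * g⁻¹ →
      σ (GrP.of Λ (fun t => ↥(B t)) t b) = GrP.of Λ (fun t => ↥(B t)) s b' := by
    rintro t s rfl b b' hb
    exact hσ t b b' hb
  have hσn : ∀ (n : ℕ) (t s : T), (τ ^ n) t = s → ∀ (b : B t) (b' : B s),
      (b' : G) = g ^ n * b * (g ^ n)⁻¹ →
      (σ ^ n) (GrP.of Λ (fun t => ↥(B t)) t b) = GrP.of Λ (fun t => ↥(B t)) s b' := by
    intro n
    induction n with
    | zero =>
      rintro t s rfl b b' hb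
      have : b' = b := by
        apply Subtype.ext
        rw [hb]
        simp
      rw [this]
      rfl
    | succ n ih =>
      intro t s hs b b' hb
      rw [pow_succ', MulAut.mul_apply, ih t _ rfl b ⟨_, hmem n t b b.2⟩ rfl]
      apply hσ' _ _ (by rw [← hs, pow_succ']; rfl)
      rw [hb]
      change _ = g * (g ^ n * (b : G) * (g ^ n)⁻¹) * g⁻¹
      rw [pow_succ', mul_inv_rev]
      simp only [mul_assoc]
  obtain ⟨m, hm, hτm⟩ : ∃ m : ℕ, 0 < m ∧ τ ^ m = 1 := ⟨orderOf τ, orderOf_pos τ, pow_orderOf_eq_one τ⟩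
  have hτmt : ∀ t, (τ ^ m) t = t := fun t => by rw [hτm]; rfl
  have h1 : ∀ t, ∀ x ∈ B t, g ^ m * x * (g ^ m)⁻¹ ∈ B t := by
    intro t x hx
    have := hmem m t x hx
    rwa [hτmt] at this
  have h2 : ∀ t, ∀ x ∈ B t, (g ^ m)⁻¹ * x * g ^ m ∈ B t := by
    intro t x hx
    have h3 : x ∈ B ((τ ^ m) t) := by rw [hτmt]; exact hx
    rw [hBn] at h3
    obtain ⟨y, hy, hyx⟩ := h3
    have h4 : g ^ m * y * (g ^ m)⁻¹ = x := hyx
    rw [← h4]
    have h5 : (g ^ m)⁻¹ * (g ^ m * y * (g ^ m)⁻¹) * g ^ m = y := by group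
    rw [h5]
    exact hy
  apply fi_mem hC σ m hm
  apply h C hC T (Multiplicative ℤ) Λ (fun t => ↥(B t)) (zpowersHom _ (σ ^ m))
    (fun t => zpowersHom (MulAut (B t)) (gam (B t) (g ^ m) (h1 t) (h2 t)))
  · intro q t a
    exact twine (GrP.of Λ (fun t => ↥(B t)) t) (gam (B t) (g ^ m) (h1 t) (h2 t)) (σ ^ m)
      (fun b => hσn m t t (hτmt t) b _ rfl) (Multiplicative.toAdd q) a
  · exact hC.base.int
  · intro t
    exact vertex_mem hC (B t) (g ^ m) (h1 t) (h2 t) (hCk t m hm (hτmt t))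

end Pool.Agent.Y232.FJ.TW
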